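import Pool.Agent.W236.SC.PFinal

/-!
# Extremal increasing flips and the quotient of the weak order interval

All finite Coxeter systems.
-/

set_option autoImplicit false

namespace Pool.Agent.Results.MP_9e7791_co.HasseExtremalFlips

open Pool.Agent.W236.SWC

universe u v

/-- for every finite Coxeter system `cs`, every alternating word `Q` and every `ω` with non-empty subword
complex, sending the class of `x` to the facet `I` with `x ∈ L(I)` is a bijection from `[1, ω] / ≡` to the
strongly acyclic facets, which carries the cover relations (oriented upward) exactly to the extremal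
increasing flips -/
theorem result {B : Type u} [Fintype B] [DecidableEq B] {M : CoxeterMatrix B} {W : Type v} [Group W]
    [Finite W] (cs : CoxeterSystem M W) (Q : List B) (ω : W) (hQ : Alternating cs Q)
    (hne : ∃ I : Finset (Fin Q.length), IsFacet cs Q ω I) :
    ∃ e : Cls cs Q ω ≃ {I : Finset (Fin Q.length) // StronglyAcyclic cs Q ω I},
      (∀ x : Ival cs ω, x.1 ∈ LinExt cs Q (e (Quot.mk _ x)).1) ∧
      ∀ a b : Cls cs Q ω, Cls.cov cs Q ω a b ↔ Arc cs Q (e a).1 (e b).1 :=
  hasse cs Q ω hQ hne

end Pool.Agent.Results.MP_9e7791_co.HasseExtremalFlips
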